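import Pool.Agent.helper47.CL.SpecD

/-!
# Row cl:ZS (MP_d9d598_co, project CL, part D)
-/

set_option autoImplicit false

namespace Pool.Agent.helper41.CL

open Finset

theorem ZS_edge {α : Type} [DecidableEq α] {V : Finset α} {E : Finset (Finset α)} (hG : Gr V E)
    {e : Finset α} (he : e ∈ E) {x : α} (hx : x ∈ e) : ∃ y, x ≠ y ∧ e = {x, y} := by
  obtain ⟨u, v, huv, rfl⟩ := Finset.card_eq_two.1 (hG e he).2
  rw [Finset.mem_insert, Finset.mem_singleton] at hx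
  rcases hx with hx | hx
  · exact ⟨v, by rw [hx]; exact huv, by rw [hx]⟩
  · exact ⟨u, by rw [hx]; exact huv.symm, by rw [hx, Finset.pair_comm]⟩

theorem ZS_mem {α : Type} [DecidableEq α] {E : Finset (Finset α)} {x : α} {e : Finset α} :
    e ∈ inc E x ↔ e ∈ E ∧ x ∈ e := by
  unfold inc
  rw [@Finset.mem_filter _ _ (_) _ _]

theorem ZS_le_one {α : Type} [DecidableEq α] {E : Finset (Finset α)} {x a : α}
    (h : #(inc E a) ≤ 1) (hxa : {a, x} ∈ E) : ∀ e ∈ E, a ∈ e → e = {a, x} := by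
  intro e he hae
  exact Finset.card_le_one.1 h e (ZS_mem.2 ⟨he, hae⟩) _ (ZS_mem.2 ⟨hxa, by simp⟩)

theorem ZS_one {α : Type} [DecidableEq α] {V : Finset α} {E : Finset (Finset α)} (hG : Gr V E)
    {x : α} (h : #(inc E x) = 1) : ∃ a, x ≠ a ∧ {x, a} ∈ E ∧ ∀ e ∈ E, x ∈ e → e = {x, a} := by
  obtain ⟨e, he⟩ := Finset.card_eq_one.1 h
  have he1 : e ∈ inc E x := by rw [he]; exact Finset.mem_singleton_self _
  obtain ⟨heE, hxe⟩ := ZS_mem.1 he1
  obtain ⟨a, hxa, hea⟩ := ZS_edge hG heE hxe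
  rw [hea] at heE
  exact ⟨a, hxa, heE, ZS_le_one (by rw [h]) heE⟩

theorem ZS_two {α : Type} [DecidableEq α] {V : Finset α} {E : Finset (Finset α)} (hG : Gr V E)
    {x : α} (h : #(inc E x) = 2) : ∃ a b, Tw E x a b := by
  obtain ⟨e, f, hef, hE⟩ := Finset.card_eq_two.1 h
  have he1 : e ∈ inc E x := by rw [hE]; simp
  have hf1 : f ∈ inc E x := by rw [hE]; simp
  obtain ⟨heE, hxe⟩ := ZS_mem.1 he1
  obtain ⟨hfE, hxf⟩ := ZS_mem.1 hf1
  obtain ⟨a, hxa, hea⟩ := ZS_edge hG heE hxe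
  obtain ⟨b, hxb, hfb⟩ := ZS_edge hG hfE hxf
  refine ⟨a, b, ?_, hxa, hxb, ?_, ?_, ?_⟩
  · intro hab
    apply hef
    rw [hea, hfb, hab]
  · rw [← hea]; exact heE
  · rw [← hfb]; exact hfE
  · intro g hg hxg
    have hg1 : g ∈ inc E x := ZS_mem.2 ⟨hg, hxg⟩
    rw [hE, Finset.mem_insert, Finset.mem_singleton] at hg1
    rcases hg1 with hg1 | hg1
    · left; rw [hg1, hea]
    · right; rw [hg1, hfb]

theorem ZS_deg {α : Type} [DecidableEq α] {E : Finset (Finset α)}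
    (hL : ¬ ∃ x a, Lf E x a) {x a b : α} (h : #(inc E x) = 2) (hT : Tw E x a b) : 2 ≤ #(inc E a) := by
  by_contra hlt
  have hax : ({a, x} : Finset α) ∈ E := by rw [Finset.pair_comm]; exact hT.2.2.2.1
  exact hL ⟨a, x, hT.2.1.symm, hax, ZS_le_one (by omega) hax, by omega⟩

theorem ZS_swap {α : Type} [DecidableEq α] {E : Finset (Finset α)} {x a b : α} (hT : Tw E x a b) : Tw E x b a :=
  ⟨hT.1.symm, hT.2.2.1, hT.2.1, hT.2.2.2.2.1, hT.2.2.2.1, fun e he hx => (hT.2.2.2.2.2 e he hx).symm⟩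

theorem ZS : ZS_stmt := by
  intro α _ V E hG
  by_contra hcon
  have hL : ¬ ∃ x a, Lf E x a := fun h => hcon (Or.inl h)
  have hI : ¬ ((∃ y ∈ V, ∀ e ∈ E, y ∉ e) ∧ ∃ a, 2 ≤ #(inc E a)) := fun h => hcon (Or.inr (Or.inl h))
  have hT : ¬ ∃ p a b, Tw E p a b ∧ 2 ≤ #(inc E a) ∧ 2 ≤ #(inc E b) := fun h => hcon (Or.inr (Or.inr (Or.inl h)))
  have hD : ¬ ∀ x, #(inc E x) ≤ 1 := fun h => hcon (Or.inr (Or.inr (Or.inr (Or.inl h))))
  have h2 : ∀ x, #(inc E x) ≠ 2 := by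
    intro x hx
    obtain ⟨a, b, hab⟩ := ZS_two hG hx
    exact hT ⟨x, a, b, hab, ZS_deg hL hx hab, ZS_deg hL hx (ZS_swap hab)⟩
  obtain ⟨p, hp⟩ : ∃ p, 2 ≤ #(inc E p) := by
    by_contra h
    apply hD
    intro x
    by_contra hx
    exact h ⟨x, by omega⟩
  apply hcon
  refine Or.inr (Or.inr (Or.inr (Or.inr ⟨⟨p, ?_⟩, ?_⟩)))
  · have := h2 p; omega
  · intro x hx
    by_cases h3 : 3 ≤ #(inc E x)
    · exact Or.inl h3
    · right
      have h1 : #(inc E x) = 1 := by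
        have h0 : #(inc E x) ≠ 0 := by
          intro h0
          apply hI
          refine ⟨⟨x, hx, ?_⟩, p, hp⟩
          intro e he hxe
          have : e ∈ inc E x := ZS_mem.2 ⟨he, hxe⟩
          rw [Finset.card_eq_zero.1 h0] at this
          exact absurd this (Finset.notMem_empty _)
        have := h2 x
        omega
      obtain ⟨a, hxa, hE, huniq⟩ := ZS_one hG h1
      refine ⟨a, hxa, hE, ?_⟩
      intro e he hor
      rcases hor with h | h
      · exact huniq e he h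
      · have hax : ({a, x} : Finset α) ∈ E := by rw [Finset.pair_comm]; exact hE
        have ha1 : #(inc E a) ≤ 1 := by
          by_contra hlt
          exact hL ⟨x, a, hxa, hE, huniq, by omega⟩
        rw [ZS_le_one ha1 hax e he h, Finset.pair_comm]

end Pool.Agent.helper41.CL
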